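import Pool.Agent.H80.PK.GStmts

/-!
Board `pkt`, row UNI: a locally compact group all of whose compact subsets have subexponential
growth is unimodular.
-/

set_option autoImplicit false

namespace Pool.PK

open MeasureTheory Filter Topology Measure
open scoped Pointwise ENNReal NNReal

section uni

variable {G : Type} [Group G] [TopologicalSpace G] [IsTopologicalGroup G]
  [LocallyCompactSpace G] [T2Space G] [MeasurableSpace G] [BorelSpace G] (μ : Measure G)
  [μ.IsHaarMeasure]

omit [LocallyCompactSpace G] [T2Space G] [MeasurableSpace G] [BorelSpace G] in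
theorem uni_isCompact_pow {L : Set G} (hL : IsCompact L) (n : ℕ) : IsCompact (L ^ n) := by
  induction n with
  | zero => rw [pow_zero]; exact isCompact_singleton
  | succ n ih => rw [pow_succ]; exact ih.mul hL

theorem uni_measure (K : Set G) (hK : IsCompact K) (g : G) (n : ℕ) :
    μ ((fun x => x * g ^ n) ⁻¹' K) = ((modularCharacterFun g) ^ n : ℝ≥0) • μ K := by
  have h1 : (map (· * g ^ n) μ) K = haarScalarFactor (map (· * g ^ n) μ) μ • μ K :=
    measure_isMulInvariant_eq_smul_of_isCompact_closure _ μ (by rwa [hK.isClosed.closure_eq])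
  rw [← modularCharacterFun_eq_haarScalarFactor μ, map_apply (measurable_mul_const _)
    hK.measurableSet] at h1
  rw [h1]
  congr 1
  exact map_pow (modularCharacter (G := G)) g n

theorem uni_le_one (h : Subexponential μ) (g : G) : modularCharacterFun g ≤ 1 := by
  obtain ⟨K, hK, hK1⟩ := exists_compact_mem_nhds (1 : G)
  have hKpos : 0 < μ K := (isOpen_interior.measure_pos μ ⟨1, mem_interior_iff_mem_nhds.2 hK1⟩).trans_le
    (measure_mono interior_subset)
  have hKfin : μ K < ∞ := hK.measure_lt_top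
  have hKr : 0 < (μ K).toReal := ENNReal.toReal_pos hKpos.ne' hKfin.ne
  set L : Set G := K ∪ {g⁻¹} with hL
  have hLc : IsCompact L := hK.union isCompact_singleton
  have hsub : ∀ n : ℕ, (fun x => x * g ^ n) ⁻¹' K ⊆ L ^ (n + 1) := by
    intro n x hx
    have hx' : x * g ^ n ∈ K := hx
    have e : x = (x * g ^ n) * (g⁻¹) ^ n := by
      rw [inv_pow, mul_inv_cancel_right]
    rw [e, pow_succ']
    exact Set.mul_mem_mul (Or.inl hx') (Set.pow_mem_pow (Or.inr rfl))
  have hle : ∀ (c : ℝ), 1 < c → ∃ A : ℝ, ∀ n : ℕ,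
      ((modularCharacterFun g : ℝ≥0) : ℝ) ^ n * (μ K).toReal ≤ A * c ^ (n + 1) := by
    intro c hc
    obtain ⟨A, hA⟩ := h L hLc c hc
    refine ⟨A, fun n => ?_⟩
    have h1 : (μ ((fun x => x * g ^ n) ⁻¹' K)).toReal ≤ (μ (L ^ (n + 1))).toReal :=
      ENNReal.toReal_mono (uni_isCompact_pow hLc _).measure_lt_top.ne (measure_mono (hsub n))
    rw [uni_measure μ K hK g n] at h1
    have h2 : (((modularCharacterFun g) ^ n : ℝ≥0) • μ K).toReal =
        ((modularCharacterFun g : ℝ≥0) : ℝ) ^ n * (μ K).toReal := by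
      rw [ENNReal.smul_def, smul_eq_mul, ENNReal.toReal_mul, ENNReal.coe_toReal, NNReal.coe_pow]
    rw [h2] at h1
    exact h1.trans (hA (n + 1))
  by_contra hgt
  have hgt' : (1 : ℝ) < ((modularCharacterFun g : ℝ≥0) : ℝ) := by
    rw [not_le] at hgt
    exact_mod_cast hgt
  set δ : ℝ := ((modularCharacterFun g : ℝ≥0) : ℝ) with hδ
  obtain ⟨A, hA⟩ := hle ((1 + δ) / 2) (by linarith)
  set c : ℝ := (1 + δ) / 2 with hc
  have hc0 : 0 < c := by rw [hc]; linarith
  have hr : 1 < δ / c := by
    rw [one_lt_div hc0, hc]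
    linarith
  obtain ⟨n, hn⟩ := (((tendsto_pow_atTop_atTop_of_one_lt hr).atTop_mul_const hKr).eventually
    (eventually_gt_atTop (A * c))).exists
  have h3 := hA n
  have h4 : δ ^ n * (μ K).toReal = (δ / c) ^ n * (μ K).toReal * c ^ n := by
    rw [div_pow]
    field_simp
  rw [h4, pow_succ, mul_comm (c ^ n) c, ← mul_assoc] at h3
  exact absurd (le_of_mul_le_mul_right h3 (pow_pos hc0 n)) (not_le.2 hn)

theorem uni_eq_one (h : Subexponential μ) (g : G) : modularCharacterFun g = 1 := by
  apply le_antisymm (uni_le_one μ h g)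
  have h1 := uni_le_one μ h g⁻¹
  have h2 : modularCharacterFun g * modularCharacterFun g⁻¹ = 1 := by
    rw [← modularCharacterFun_map_mul, mul_inv_cancel, modularCharacterFun_map_one]
  calc (1 : ℝ≥0) = modularCharacterFun g * modularCharacterFun g⁻¹ := h2.symm
    _ ≤ modularCharacterFun g * 1 := mul_le_mul_right h1 _
    _ = modularCharacterFun g := mul_one _

theorem uni_integral_mul_right (h : Subexponential μ) (g : G) {f : G → ℝ} (hf : Continuous f)
    (h'f : HasCompactSupport f) : ∫ x, f (x * g) ∂μ = ∫ x, f x ∂μ := by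
  have h1 : ∫ x, f x ∂(map (· * g) μ) = ∫ x, f x ∂(haarScalarFactor (map (· * g) μ) μ • μ) :=
    integral_isMulLeftInvariant_eq_smul_of_hasCompactSupport _ μ hf h'f
  rw [← modularCharacterFun_eq_haarScalarFactor μ, uni_eq_one μ h g, one_smul,
    integral_map (AEMeasurable.mul_const aemeasurable_id' _)
      (Continuous.aestronglyMeasurable hf)] at h1
  exact h1

theorem uni_integral_inv (h : Subexponential μ) {f : G → ℝ} (hf : Continuous f)
    (h'f : HasCompactSupport f) : ∫ x, f x⁻¹ ∂μ = ∫ x, f x ∂μ := by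
  obtain ⟨⟨g, g_cont⟩, g_comp, g_nonneg, g_one⟩ :
    ∃ g : C(G, ℝ), HasCompactSupport g ∧ 0 ≤ g ∧ g 1 ≠ 0 := exists_continuous_nonneg_pos 1
  have hpos : 0 < ∫ x, g x ∂μ :=
    g_cont.integral_pos_of_hasCompactSupport_nonneg_nonzero g_comp g_nonneg g_one
  have hinv : ∀ k : G → ℝ, Continuous k → ∫ x, k x ∂μ.inv = ∫ x, k x⁻¹ ∂μ := by
    intro k hk
    exact integral_map measurable_inv.aemeasurable hk.aestronglyMeasurable
  have key := integral_isMulLeftInvariant_isMulRightInvariant_combo (μ := μ) (ν := μ.inv)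
    hf h'f g_cont g_comp g_nonneg g_one
  have h2 : ∀ y : G, ∫ z, g (z⁻¹ * y) ∂μ.inv = ∫ x, g x ∂μ := by
    intro y
    rw [hinv (fun z => g (z⁻¹ * y)) (g_cont.comp (continuous_inv.mul continuous_const))]
    simp only [inv_inv]
    exact uni_integral_mul_right μ h y g_cont g_comp
  have h3 : ∫ x, f x ∂μ = ∫ x, f x ∂μ.inv := by
    rw [key]
    simp only [h2]
    rw [integral_mul_const, mul_assoc, inv_mul_cancel₀ hpos.ne', mul_one]
  rw [h3, hinv f hf]

end uni

theorem UNI : UNIStmt := by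
  intro G _ _ _ _ _ _ _ μ _ h f
  have hcont : Continuous (fun x : G => ‖f.1 x‖) := f.2.1.norm
  have hcomp : HasCompactSupport (fun x : G => ‖f.1 x‖) := f.2.2.norm
  have h1 : ∀ k : CG μ, lpn μ 1 k = ∫ x, ‖k.1 x‖ ∂μ := by
    intro k
    unfold lpn
    rw [eLpNorm_one_eq_lintegral_enorm, integral_norm_eq_lintegral_enorm
      k.2.1.aestronglyMeasurable]
  rw [h1, h1, ← uni_integral_inv μ h hcont hcomp]
  refine integral_congr_ae (Eventually.of_forall fun x => ?_)
  change ‖(starRingEnd ℂ) (f.1 x⁻¹)‖ = ‖f.1 x⁻¹‖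
  exact Complex.norm_conj _

end Pool.PK
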